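import Pool.Agent.MWA.StmtsP

/-!
Squad MWA, row MUX: the congruence `mu`.
-/

set_option autoImplicit false

namespace Pool.Agent.MWA.H53

open Pool.Agent.Helper14_MV Pool.Agent.Helper2_MV Pool.Agent.MVO Pool.Agent.MWL Pool.Agent.MWS

theorem count_flatMap_ge (f : ℕ → List ℕ) (c x : ℕ) (hx : x ∈ f c) (u : List ℕ) :
    u.count c ≤ (u.flatMap f).count x := by
  induction u with
  | nil => simp
  | cons d u ih =>
    rw [List.flatMap_cons, List.count_append]
    by_cases h : d = c
    · subst h
      rw [List.count_cons_self]
      have h1 : 0 < (f d).count x := List.count_pos_iff.2 hx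
      omega
    · rw [List.count_cons_of_ne h]
      omega

theorem flatMap_filter' (f : ℕ → List ℕ) (P : ℕ → Bool) (u : List ℕ)
    (h : ∀ c ∈ u, P c = false → f c = []) : u.flatMap f = (u.filter P).flatMap f := by
  induction u with
  | nil => rfl
  | cons d u ih =>
    have h1 := ih fun c hc => h c (List.mem_cons_of_mem _ hc)
    rw [List.flatMap_cons, h1]
    by_cases hd : P d = true
    · rw [List.filter_cons_of_pos hd, List.flatMap_cons]
    · rw [List.filter_cons_of_neg hd, h d List.mem_cons_self (by simpa using hd),
        List.nil_append]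

theorem flat_eq {u v : List ℕ} (h1 : ∀ c, min (u.count c) 2 = min (v.count c) 2)
    (h2 : u.filter (fun c => u.count c = 1) = v.filter (fun c => v.count c = 1))
    (f : ℕ → List ℕ) (p q : List ℕ) (h : p ++ u.flatMap f ++ q = [0, 1]) :
    v.flatMap f = u.flatMap f := by
  have hnd : (u.flatMap f).Nodup := by
    have h3 : (p ++ u.flatMap f ++ q).Nodup := by
      rw [h]
      decide
    exact (List.nodup_append.1 (List.nodup_append.1 h3).1).2.1
  have hf : ∀ c, 2 ≤ u.count c → f c = [] := by
    intro c hc
    by_contra hne
    obtain ⟨x, hx⟩ := List.exists_mem_of_ne_nil _ hne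
    have h3 := count_flatMap_ge f c x hx u
    have h4 := List.nodup_iff_count_le_one.1 hnd x
    omega
  rw [flatMap_filter' f (fun c => decide (u.count c = 1)) u ?_,
    flatMap_filter' f (fun c => decide (v.count c = 1)) v ?_]
  · rw [h2]
  · intro c hc h3
    refine hf c ?_
    have h4 : 0 < v.count c := List.count_pos_iff.2 hc
    have h5 := of_decide_eq_false h3
    have h6 := h1 c
    omega
  · intro c hc h3
    refine hf c ?_
    have h4 : 0 < u.count c := List.count_pos_iff.2 hc
    have h5 := of_decide_eq_false h3
    omega

theorem rr_rep {θ : FIC} {u v : List ℕ} (h : RR θ u v) (c : ℕ) :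
    RR θ (List.replicate (u.count c) 0) (List.replicate (v.count c) 0) := by
  have h1 := (h.filter (fun d => d == c)).sub (fun _ => [0])
  have e : ∀ w : List ℕ, (w.filter (fun d => d == c)).flatMap (fun _ => [0]) =
      List.replicate (w.count c) 0 := by
    intro w
    rw [List.filter_beq]
    induction w.count c with
    | zero => rfl
    | succ n ih =>
      rw [List.replicate_succ, List.flatMap_cons, ih, List.replicate_succ]
      rfl
  rw [e, e] at h1
  exact h1

theorem mu_count {u v : List ℕ} (h : RR mu u v) (c : ℕ) (h1 : u.count c ≤ 1)
    (h2 : u.count c < v.count c) : False := by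
  have h3 := rr_rep h c
  rcases Nat.le_one_iff_eq_zero_or_eq_one.1 h1 with h4 | h4
  · rw [h4] at h3
    have h5 := (Pool.Agent.MWF.gaml_keep (h3.append (RR.refl [0, 1]))).1 rfl
    have h6 := congrArg List.length h5
    simp only [List.length_append, List.length_replicate, List.length_cons,
      List.length_nil] at h6
    omega
  · rw [h4] at h3
    have h5 := (Pool.Agent.MWF.gaml_keep (h3.append (RR.refl [1]))).1 rfl
    have h6 := congrArg List.length h5
    simp only [List.length_append, List.length_replicate, List.length_cons,
      List.length_nil] at h6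
    omega

theorem mux : MuxStmt := by
  refine ⟨?_, ?_, ?_, ?_⟩
  · intro h
    have h1 := (Pool.Agent.MWF.gaml_keep h).1 rfl
    exact absurd h1 (by decide)
  · intro β θ hcap hle hnc
    refine Pool.Agent.MWF.le_gaml ?_
    intro u v huv hu
    subst hu
    have hc := hcap θ hle hnc _ _ huv
    have hperm : v.Perm [0, 1] := by
      rw [List.perm_iff_count]
      intro a
      have h1 := hc a
      have h2 : List.count a [0, 1] ≤ 1 := List.nodup_iff_count_le_one.1 (by decide) a
      omega
    have hlen : v.length = 2 := hperm.length_eq
    obtain ⟨a, b, rfl⟩ := List.length_eq_two.1 hlen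
    have ha : a = 0 ∨ a = 1 := by
      have h1 := hperm.subset (List.mem_cons_self (a := a) (l := [b]))
      simpa using h1
    have hb : b = 0 ∨ b = 1 := by
      have h1 := hperm.subset (List.mem_cons_of_mem a (List.mem_singleton_self b))
      simpa using h1
    have h0 := hc 0
    rcases ha with rfl | rfl <;> rcases hb with rfl | rfl
    · exact absurd h0 (by decide)
    · rfl
    · exact absurd huv hnc
    · exact absurd h0 (by decide)
  · intro u v h1 h2
    refine Pool.Agent.MWF.RR_gaml ?_
    intro f p q
    constructor
    · intro h
      show p ++ v.flatMap f ++ q = [0, 1]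
      rw [flat_eq h1 h2 f p q h]
      exact h
    · intro h
      show p ++ u.flatMap f ++ q = [0, 1]
      rw [flat_eq (fun c => (h1 c).symm) h2.symm f p q h]
      exact h
  · intro u v h c
    rcases lt_trichotomy (u.count c) (v.count c) with h1 | h1 | h1
    · by_contra hne
      exact mu_count h c (by omega) h1
    · rw [h1]
    · by_contra hne
      exact mu_count (RR.symm h) c (by omega) h1

end Pool.Agent.MWA.H53
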