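import Pool.Agent.MWA.StmtsP

/-!
Squad MWA, row BTR: exchanges do not depend on the entries in absorbing blocks.
-/

set_option autoImplicit false

namespace Pool.Agent.MWA.H53

open Pool.Agent.Helper14_MV Pool.Agent.Helper2_MV Pool.Agent.MVO Pool.Agent.MWL Pool.Agent.MWS

theorem psh_id {k : ℕ} (a : ℕ → ℕ) {t : ℕ} (ht : t ≤ k) : psh k id a t = a t := by
  unfold psh
  simp only [id]
  rw [Finset.sum_ite_eq' (Finset.range (k + 1)) t a, if_pos (Finset.mem_range.2 (by omega))]

theorem bmap_id (k : ℕ) : BMap k k id := ⟨fun _ _ h _ => h, fun _ h => h⟩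

theorem btr (h1 : HapStmt) (h2 : BtfStmt) (h3 : BtuStmt) : BtrStmt := by
  intro n θ hθ k a c b i hc hb hLc hLb hac hB
  have hn := hθ.pos
  obtain ⟨c', hc'⟩ : ∃ c' : ℕ → ℕ, c' = fun r =>
      if c r = a r then a r else a r + n * c r + 2 * n := ⟨_, rfl⟩
  have hle : ∀ r, c r ≤ c' r := by
    intro r
    rw [hc']
    by_cases h : c r = a r
    · simp [h]
    · simp only [h, if_false]
      have h5 : c r ≤ n * c r := Nat.le_mul_of_pos_left _ hn
      omega
  have hB' : Bt θ k c' b (id i) := by
    refine h3 θ hθ.cl k k id c b c' b i (bmap_id k) hc hb hLc hLb hB ?_ ?_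
    · intro t ht
      rw [psh_id c ht]
      exact hle t
    · intro t ht
      rw [psh_id b ht]
  have hL : L1 θ k a c' := by
    refine (h1 n θ hn hθ.ap).2 k a c' ?_
    intro r hr
    by_cases h : c r = a r
    · left
      rw [hc']
      simp [h]
    · right
      have e : c' r = a r + n * c r + 2 * n := by
        rw [hc']
        simp [h]
      refine ⟨?_, ?_, ?_⟩
      · rw [e]
        omega
      · rw [e]
        have e2 : a r + n * c r + 2 * n = a r + n * (c r + 2) := by ring
        rw [e2]
        exact Nat.ModEq.symm (by simp [Nat.ModEq])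
      · rcases hac r hr with h5 | h5
        · exact absurd h5 h
        · exact h5
  exact (h2 θ k a c' b b hL (RR.refl _)).2 i hB'

end Pool.Agent.MWA.H53
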